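import Mathlib
import Pool.Agent.Helper51.LT.St
import Pool.Agent.Helper71.TU.X5aux

set_option autoImplicit false

namespace Pool.Agent.Helper38.LT

open Complex MeasureTheory Set Metric Filter Topology
open Pool.Agent.Helper51.LT

/-- module INJ: robust injectivity -/
theorem hInj (hKoe : StKoe) : StInj := by
  intro f R ρ hR hf hρ0 hρ1
  have hne : ∀ z ∈ ball (0 : ℂ) R, deriv f z ≠ 0 := fun z hz =>
    Pool.TU.X5.deriv_ne_zero_of_injOn isOpen_ball hf.1 hf.2 hz
  have hsub : closedBall (0 : ℂ) 1 ⊆ ball 0 R := closedBall_subset_ball hR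
  have hcont : ContinuousOn (fun z => ‖deriv f z‖) (closedBall (0 : ℂ) 1) :=
    ((hf.1.deriv isOpen_ball).continuousOn.mono hsub).norm
  obtain ⟨z₀, hz₀, hmin⟩ := (isCompact_closedBall (0 : ℂ) 1).exists_isMinOn
    ⟨0, mem_closedBall_self zero_le_one⟩ hcont
  set c : ℝ := ‖deriv f z₀‖ with hc
  have hc0 : 0 < c := norm_pos_iff.mpr (hne z₀ (hsub hz₀))
  have hcle : ∀ z ∈ closedBall (0 : ℂ) 1, c ≤ ‖deriv f z‖ := fun z hz => hmin hz
  set d : ℝ := R - 1 with hd
  have hd0 : 0 < d := by linarith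
  set m : ℝ := min 1 (d / 2) with hm
  have hm0 : 0 < m := lt_min one_pos (by linarith)
  have hm1 : m ≤ 1 := min_le_left _ _
  have hm2 : m ≤ d / 2 := min_le_right _ _
  set s : ℝ := (1 - ρ) / 4 with hs
  have hs0 : 0 < s := by rw [hs]; linarith
  have hcms : 0 < c * m * s / 8 := by positivity
  refine ⟨c * m * s / 8, hcms, (1 + ρ) / 2, by linarith, by linarith, ?_⟩
  intro F hF hclose
  -- the difference
  set e : ℂ → ℂ := fun z => F z - f z with he
  have hfd : DifferentiableOn ℂ f (ball 0 1) := hf.1.mono (ball_subset_ball hR.le)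
  have hed : DifferentiableOn ℂ e (ball 0 1) := hF.sub hfd
  have hder : ∀ z ∈ closedBall (0 : ℂ) ρ, ‖deriv e z‖ ≤ c * m / 8 := by
    intro z hz
    rw [mem_closedBall, dist_zero_right] at hz
    have hcb : closedBall z s ⊆ ball (0 : ℂ) 1 := by
      intro x hx
      rw [mem_closedBall, dist_eq_norm] at hx
      rw [mem_ball, dist_zero_right]
      have h1 : ‖x‖ ≤ ‖x - z‖ + ‖z‖ := by
        have := norm_add_le (x - z) z
        rwa [sub_add_cancel] at this
      have : s ≤ (1 - ρ) / 4 := le_of_eq hs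
      linarith
    have hdc : DiffContOnCl ℂ e (ball z s) := by
      apply DifferentiableOn.diffContOnCl
      rw [closure_ball z hs0.ne']
      exact hed.mono hcb
    have hsph : ∀ x ∈ sphere z s, ‖e x‖ ≤ c * m * s / 8 := by
      intro x hx
      apply hclose
      rw [mem_sphere, dist_eq_norm] at hx
      have h1 : ‖x‖ ≤ ‖x - z‖ + ‖z‖ := by
        have := norm_add_le (x - z) z
        rwa [sub_add_cancel] at this
      have : s ≤ (1 - ρ) / 4 := le_of_eq hs
      linarith
    have hC := Complex.norm_deriv_le_of_forall_mem_sphere_norm_le hs0 hdc hsph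
    calc ‖deriv e z‖ ≤ c * m * s / 8 / s := hC
      _ = c * m / 8 := by field_simp
  intro z hz w hw hFzw
  have hzρ : ‖z‖ ≤ ρ := by rwa [mem_closedBall, dist_zero_right] at hz
  have hwρ : ‖w‖ ≤ ρ := by rwa [mem_closedBall, dist_zero_right] at hw
  have hlip : ‖e w - e z‖ ≤ c * m / 8 * ‖w - z‖ := by
    refine Convex.norm_image_sub_le_of_norm_deriv_le (𝕜 := ℂ) (s := closedBall (0 : ℂ) ρ) ?_ hder
      (convex_closedBall 0 ρ) hz hw
    intro x hx
    refine hed.differentiableAt (isOpen_ball.mem_nhds ?_)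
    exact closedBall_subset_ball hρ1 hx
  have hfe : ‖f w - f z‖ = ‖e w - e z‖ := by
    have : f w - f z = -(e w - e z) := by
      simp only [he]
      have : F z = F w := hFzw
      rw [this]; ring
    rw [this, norm_neg]
  have hball : ball z d ⊆ ball (0 : ℂ) R := by
    intro x hx
    rw [mem_ball, dist_eq_norm] at hx
    rw [mem_ball, dist_zero_right]
    have h1 : ‖x‖ ≤ ‖x - z‖ + ‖z‖ := by
      have := norm_add_le (x - z) z
      rwa [sub_add_cancel] at this
    have : d = R - 1 := hd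
    linarith
  have hk := hKoe f (ball 0 R) z d hd0 hball isOpen_ball hf w
    (hsub (closedBall_subset_closedBall hρ1.le hw))
  have hwz2 : ‖w - z‖ ≤ 2 := by
    have := norm_sub_le w z
    linarith
  have hmle : ‖w - z‖ * m ≤ min ‖w - z‖ d := by
    apply le_min
    · have := mul_le_mul_of_nonneg_left hm1 (norm_nonneg (w - z))
      linarith
    · have h1 := mul_le_mul_of_nonneg_left hm2 (norm_nonneg (w - z))
      have h2 := mul_le_mul_of_nonneg_right hwz2 (by linarith : (0 : ℝ) ≤ d / 2)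
      linarith
  have hcz : c ≤ ‖deriv f z‖ := hcle z (closedBall_subset_closedBall hρ1.le hz)
  have h3 : c * (‖w - z‖ * m) ≤ ‖deriv f z‖ * min ‖w - z‖ d :=
    mul_le_mul hcz hmle (by positivity) (norm_nonneg _)
  have h4 : c * (‖w - z‖ * m) ≤ 4 * (c * m / 8 * ‖w - z‖) := by
    calc c * (‖w - z‖ * m) ≤ 4 * ‖f w - f z‖ := h3.trans hk
      _ ≤ 4 * (c * m / 8 * ‖w - z‖) := by rw [hfe]; linarith
  have h5 : c * m * ‖w - z‖ ≤ 0 := by nlinarith
  have h6 : ‖w - z‖ ≤ 0 := by
    by_contra hcon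
    push Not at hcon
    have : 0 < c * m * ‖w - z‖ := by positivity
    linarith
  have h7 : w - z = 0 := norm_le_zero_iff.mp h6
  exact (sub_eq_zero.mp h7).symm

end Pool.Agent.Helper38.LT
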